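import Pool.Agent.helper91.RB.Spec4

/-!
# Row rb:EBS (MP_24e2e7_nt): an integral basis of the invariant and anti-invariant elements
-/

set_option autoImplicit false

namespace Pool.Agent.RB

open Module
open scoped Classical

/-- the subgroup `B ∪ c B` -/
def EBS_sub {G : Type} [CommGroup G] (B : Subgroup G) (c : G) (hc : c * c = 1) : Subgroup G where
  carrier := {g | g ∈ B ∨ c * g ∈ B}
  one_mem' := Or.inl B.one_mem
  mul_mem' := by
    rintro g h (hg | hg) (hh | hh)
    · exact Or.inl (B.mul_mem hg hh)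
    · refine Or.inr ?_
      have := B.mul_mem hg hh
      rwa [mul_left_comm] at this
    · refine Or.inr ?_
      have := B.mul_mem hg hh
      rwa [mul_assoc] at this
    · refine Or.inl ?_
      have := B.mul_mem hg hh
      have e : c * g * (c * h) = g * h := by
        rw [mul_mul_mul_comm, hc, one_mul]
      rwa [e] at this
  inv_mem' := by
    rintro g (hg | hg)
    · exact Or.inl (B.inv_mem hg)
    · refine Or.inr ?_
      have := B.inv_mem hg
      rw [mul_inv] at this
      have e : c⁻¹ = c := inv_eq_of_mul_eq_one_left hc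
      rwa [e] at this

/-- the sign -/
noncomputable def EBS_sg {G : Type} [CommGroup G] (B : Subgroup G) (g : G) : ℤ := if g ∈ B then 1 else -1

theorem EBS_sg_mul {G : Type} [CommGroup G] (B : Subgroup G) (b x : G) (hb : b ∈ B) :
    EBS_sg B (b * x) = EBS_sg B x := by
  unfold EBS_sg
  simp only [B.mul_mem_cancel_left hb]

theorem EBS_sg_c {G : Type} [CommGroup G] (B : Subgroup G) (c : G) (hc : c * c = 1) (hcB : c ∉ B) (x : G)
    (hx : x ∈ EBS_sub B c hc) : EBS_sg B (c * x) = -EBS_sg B x := by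
  unfold EBS_sg
  by_cases h : x ∈ B
  · have h2 : c * x ∉ B := fun h3 => hcB ((B.mul_mem_cancel_right h).1 h3)
    rw [if_pos h, if_neg h2]
  · have h2 : c * x ∈ B := hx.resolve_left h
    rw [if_neg h, if_pos h2, neg_neg]

/-- the coefficient function with given values at the representatives -/
noncomputable def EBS_fn {G : Type} [CommGroup G] (B : Subgroup G) (c : G) (hc : c * c = 1)
    {R : Type} [CommRing R] (f : G ⧸ EBS_sub B c hc → R) (g : G) : R :=
  ((EBS_sg B ((Quotient.out (g : G ⧸ EBS_sub B c hc))⁻¹ * g) : ℤ) : R) * f (g : G ⧸ EBS_sub B c hc)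

theorem EBS_mk_mul {G : Type} [CommGroup G] (B : Subgroup G) (c : G) (hc : c * c = 1) (b g : G)
    (hb : b ∈ EBS_sub B c hc) : ((b * g : G) : G ⧸ EBS_sub B c hc) = (g : G ⧸ EBS_sub B c hc) := by
  rw [QuotientGroup.eq]
  have e : (b * g)⁻¹ * g = b⁻¹ := by
    rw [mul_inv, mul_assoc, inv_mul_cancel, mul_one]
  rw [e]
  exact (EBS_sub B c hc).inv_mem hb

theorem EBS_out {G : Type} [CommGroup G] (B : Subgroup G) (c : G) (hc : c * c = 1) (g : G) :
    (Quotient.out (g : G ⧸ EBS_sub B c hc))⁻¹ * g ∈ EBS_sub B c hc := by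
  rw [← QuotientGroup.eq]
  exact Quotient.out_eq _

theorem EBS_fn_b {G : Type} [CommGroup G] (B : Subgroup G) (c : G) (hc : c * c = 1)
    {R : Type} [CommRing R] (f : G ⧸ EBS_sub B c hc → R) (b g : G) (hb : b ∈ B) :
    EBS_fn B c hc f (b * g) = EBS_fn B c hc f g := by
  unfold EBS_fn
  rw [EBS_mk_mul B c hc b g (Or.inl hb), mul_left_comm, EBS_sg_mul B b _ hb]

theorem EBS_fn_c {G : Type} [CommGroup G] (B : Subgroup G) (c : G) (hc : c * c = 1) (hcB : c ∉ B)
    {R : Type} [CommRing R] (f : G ⧸ EBS_sub B c hc → R) (g : G) :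
    EBS_fn B c hc f (c * g) = -EBS_fn B c hc f g := by
  unfold EBS_fn
  have hcm : c ∈ EBS_sub B c hc := Or.inr (by rw [hc]; exact B.one_mem)
  rw [EBS_mk_mul B c hc c g hcm, mul_left_comm, EBS_sg_c B c hc hcB _ (EBS_out B c hc g)]
  push_cast
  ring

theorem EBS_fn_out {G : Type} [CommGroup G] (B : Subgroup G) (c : G) (hc : c * c = 1)
    {R : Type} [CommRing R] (f : G ⧸ EBS_sub B c hc → R) (q : G ⧸ EBS_sub B c hc) :
    EBS_fn B c hc f (Quotient.out q) = f q := by
  unfold EBS_fn
  have e : ((Quotient.out q : G) : G ⧸ EBS_sub B c hc) = q := Quotient.out_eq q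
  rw [e, inv_mul_cancel]
  unfold EBS_sg
  rw [if_pos B.one_mem]
  simp

/-- the element of the group ring with given values at the representatives -/
noncomputable def EBS_el {G : Type} [CommGroup G] [Finite G] (B : Subgroup G) (c : G) (hc : c * c = 1)
    {R : Type} [CommRing R] (f : G ⧸ EBS_sub B c hc → R) : MonoidAlgebra R G :=
  MonoidAlgebra.ofCoeff (Finsupp.equivFunOnFinite.symm (EBS_fn B c hc f))

theorem EBS_el_coeff {G : Type} [CommGroup G] [Finite G] (B : Subgroup G) (c : G) (hc : c * c = 1)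
    {R : Type} [CommRing R] (f : G ⧸ EBS_sub B c hc → R) (g : G) :
    (EBS_el B c hc f).coeff g = EBS_fn B c hc f g := rfl

theorem EBS_el_mem {G : Type} [CommGroup G] [Finite G] (B : Subgroup G) (c : G) (hc : c * c = 1) (hcB : c ∉ B)
    {R : Type} [CommRing R] (f : G ⧸ EBS_sub B c hc → R) :
    (∀ b ∈ B, MonoidAlgebra.single b 1 * EBS_el B c hc f = EBS_el B c hc f) ∧
      MonoidAlgebra.single c 1 * EBS_el B c hc f = -EBS_el B c hc f := by
  refine ⟨fun b hb => ?_, ?_⟩
  · apply MonoidAlgebra.ext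
    ext g
    rw [MonoidAlgebra.coeff_single_mul_apply, one_mul, EBS_el_coeff, EBS_el_coeff,
      EBS_fn_b B c hc f _ g (B.inv_mem hb)]
  · apply MonoidAlgebra.ext
    ext g
    have e : c⁻¹ = c := inv_eq_of_mul_eq_one_left hc
    rw [MonoidAlgebra.coeff_single_mul_apply, one_mul, EBS_el_coeff, e, EBS_fn_c B c hc hcB f g]
    rfl

/-- an element is determined by its values at the representatives -/
theorem EBS_det {G : Type} [CommGroup G] [Finite G] (B : Subgroup G) (c : G) (hc : c * c = 1)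
    {R : Type} [CommRing R] (y : MonoidAlgebra R G)
    (h1 : ∀ b ∈ B, MonoidAlgebra.single b 1 * y = y) (h2 : MonoidAlgebra.single c 1 * y = -y) :
    EBS_el B c hc (fun q => y.coeff (Quotient.out q)) = y := by
  have k1 : ∀ b ∈ B, ∀ g, y.coeff (b * g) = y.coeff g := by
    intro b hb g
    have h3 := congrArg (fun z : MonoidAlgebra R G => z.coeff (b * g)) (h1 b hb)
    simp only [MonoidAlgebra.coeff_single_mul_apply, one_mul, inv_mul_cancel_left] at h3
    exact h3.symm
  have k2 : ∀ g, y.coeff (c * g) = -y.coeff g := by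
    intro g
    have h3 := congrArg (fun z : MonoidAlgebra R G => z.coeff (c * g)) h2
    simp only [MonoidAlgebra.coeff_single_mul_apply, one_mul, inv_mul_cancel_left] at h3
    have h4 : (-y).coeff (c * g) = -(y.coeff (c * g)) := rfl
    rw [h4] at h3
    rw [h3, neg_neg]
  apply MonoidAlgebra.ext
  ext g
  rw [EBS_el_coeff]
  unfold EBS_fn
  set r := Quotient.out (g : G ⧸ EBS_sub B c hc) with hr
  have hx : r⁻¹ * g ∈ EBS_sub B c hc := EBS_out B c hc g
  have hg : g = r⁻¹ * g * r := by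
    rw [mul_comm, mul_inv_cancel_left]
  unfold EBS_sg
  by_cases h : r⁻¹ * g ∈ B
  · rw [if_pos h]
    have h3 := k1 _ h r
    rw [← hg] at h3
    show ((1 : ℤ) : R) * y.coeff r = y.coeff g
    rw [h3, Int.cast_one, one_mul]
  · rw [if_neg h]
    have h5 : c * (r⁻¹ * g) ∈ B := hx.resolve_left h
    have h3 := k1 _ h5 r
    rw [mul_assoc, k2, ← hg] at h3
    show ((-1 : ℤ) : R) * y.coeff r = y.coeff g
    rw [← h3, Int.cast_neg, Int.cast_one, neg_mul, one_mul, neg_neg]

theorem EBS : EBS_stmt := by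
  intro G _ _ B c hc hcB
  have hfin : Finite (G ⧸ EBS_sub B c hc) := inferInstance
  let L : EC B c ≃ₗ[ℂ] (G ⧸ EBS_sub B c hc → ℂ) :=
    { toFun := fun y q => (y : MonoidAlgebra ℂ G).coeff (Quotient.out q)
      map_add' := fun x y => rfl
      map_smul' := fun a x => rfl
      invFun := fun f => ⟨EBS_el B c hc f, EBS_el_mem B c hc hcB f⟩
      left_inv := fun y => Subtype.ext (EBS_det B c hc (y : MonoidAlgebra ℂ G) y.2.1 y.2.2)
      right_inv := fun f => by
        funext q
        show (EBS_el B c hc f).coeff (Quotient.out q) = f q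
        rw [EBS_el_coeff, EBS_fn_out] }
  have hft : Fintype (G ⧸ EBS_sub B c hc) := Fintype.ofFinite _
  refine ⟨G ⧸ EBS_sub B c hc, hft, Basis.ofEquivFun L, fun y => ?_⟩
  have hrepr : ∀ q, (Basis.ofEquivFun L).repr y q = (y : MonoidAlgebra ℂ G).coeff (Quotient.out q) := by
    intro q
    rw [Basis.ofEquivFun_repr_apply]
    rfl
  have hmem : y ∈ AddSubgroup.closure (Set.range (Basis.ofEquivFun L)) ↔
      ∀ q, (Basis.ofEquivFun L).repr y q ∈ Set.range (algebraMap ℤ ℂ) := by
    rw [← Submodule.span_int_eq_addSubgroupClosure, Submodule.mem_toAddSubgroup]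
    exact Basis.mem_span_iff_repr_mem ℤ (Basis.ofEquivFun L) y
  rw [hmem]
  constructor
  · intro h
    choose n hn using h
    refine ⟨EBS_el B c hc n, EBS_el_mem B c hc hcB n, ?_⟩
    rw [← EBS_det B c hc (y : MonoidAlgebra ℂ G) y.2.1 y.2.2]
    apply MonoidAlgebra.ext
    ext g
    have h1 : (zc (EBS_el B c hc n)).coeff g = (Int.castRingHom ℂ) ((EBS_el B c hc n).coeff g) :=
      MonoidAlgebra.coeff_mapRingHom _ _ _
    rw [h1, EBS_el_coeff, EBS_el_coeff]
    unfold EBS_fn
    rw [map_mul]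
    have h2 : (Int.castRingHom ℂ) (n (g : G ⧸ EBS_sub B c hc)) =
        (y : MonoidAlgebra ℂ G).coeff (Quotient.out (g : G ⧸ EBS_sub B c hc)) := by
      rw [← hrepr, ← hn]
      rfl
    rw [h2]
    simp
  · rintro ⟨x, -, hx⟩ q
    rw [hrepr, ← hx]
    refine ⟨x.coeff (Quotient.out q), ?_⟩
    exact (MonoidAlgebra.coeff_mapRingHom (Int.castRingHom ℂ) x (Quotient.out q)).symm

end Pool.Agent.RB
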