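import Pool.Agent.helper91.RB.Spec5

/-!
# Row rb:LTR (MP_24e2e7_nt): L-values of inflations
-/

set_option autoImplicit false

namespace Pool.Agent.RB

open NumberField IsDedekindDomain Module
open scoped nonZeroDivisors Real Classical IsMulCommutative

theorem LTR (hINF : INF_stmt) : LTR_stmt := by
  intro F K H _ _ _ _ _ _ _ _ _ _ _ _ Lf hL
  have hch : ∀ (ψ : (K ≃ₐ[F] K) →* ℂˣ) (p : HOS F),
      chv (ψ.comp (AlgEquiv.restrictNormalHom K : (H ≃ₐ[F] H) →* (K ≃ₐ[F] K))) p = chv ψ p :=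
    fun ψ p => (hINF F K H ψ p).2
  constructor
  · intro ψ
    obtain ⟨h1, h2⟩ := hL (ψ.comp (AlgEquiv.restrictNormalHom K : (H ≃ₐ[F] H) →* (K ≃ₐ[F] K)))
    refine ⟨h1, fun s hs => ?_⟩
    refine (h2 s hs).trans ?_
    unfold LE
    refine tprod_congr fun p => ?_
    rw [hch]
  · intro S T ψ
    unfold LST
    simp only [hch]

end Pool.Agent.RB
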